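import Mathlib
import Pool.Agent.HalmosShift.Key

/-!
Halmos's question on the bilateral weighted shift `W e_n = 2^(-|n|) e_(n+1)`: its lattice of
closed invariant subspaces is exactly the obvious chain, so the chain `1 + *ω + ω + 1` is
attainable.
-/

namespace Pool.Agent.Results.MP_1e8505_an.HalmosChain

universe u

/-- The lattice of closed invariant subspaces of `T`, ordered by inclusion. -/
abbrev Lat {H : Type u} [NormedAddCommGroup H] [InnerProductSpace ℂ H] (T : H →L[ℂ] H) : Type u :=
  {M : Submodule ℂ H // IsClosed (M : Set H) ∧ ∀ x ∈ M, T x ∈ M}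

/-- `T` is the weighted shift with weights `2^(-|n|)` for the basis `e`. -/
def IsShift {H : Type u} [NormedAddCommGroup H] [InnerProductSpace ℂ H]
    (e : HilbertBasis ℤ ℂ H) (T : H →L[ℂ] H) : Prop :=
  ∀ n : ℤ, T (e n) = ((2 : ℂ) ^ (-|n|)) • e (n + 1)

/-- The closed span of the `e n` with `n ≥ k`. -/
def Tail {H : Type u} [NormedAddCommGroup H] [InnerProductSpace ℂ H]
    (e : HilbertBasis ℤ ℂ H) (k : ℤ) : Submodule ℂ H :=
  (Submodule.span ℂ (e '' Set.Ici k)).topologicalClosure

/-- The ordered set `L` is attainable: it is the lattice of closed invariant subspaces of a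
bounded operator on a separable complex Hilbert space. -/
def Attainable (L : Type) [Preorder L] : Prop :=
  ∃ (H : Type) (_ : NormedAddCommGroup H) (_ : InnerProductSpace ℂ H) (_ : CompleteSpace H)
    (_ : TopologicalSpace.SeparableSpace H) (T : H →L[ℂ] H), Nonempty (Lat T ≃o L)

theorem result :
    (∀ (H : Type u) [NormedAddCommGroup H] [InnerProductSpace ℂ H] [CompleteSpace H]
      (e : HilbertBasis ℤ ℂ H) (W : H →L[ℂ] H), IsShift e W →
      ∀ M : Submodule ℂ H, (IsClosed (M : Set H) ∧ ∀ x ∈ M, W x ∈ M) ↔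
        (M = ⊥ ∨ M = ⊤ ∨ ∃ k : ℤ, M = Tail e k)) ∧
    Attainable (WithBot (WithTop ℤ)) := by
  refine ⟨fun H _ _ _ e W hW M => Pool.Agent.HalmosShift.classification e W hW M, ?_⟩
  let e : HilbertBasis ℤ ℂ (lp (fun _ : ℤ => ℂ) 2) := ⟨LinearIsometryEquiv.refl ℂ _⟩
  obtain ⟨W, hW⟩ := Pool.Agent.HalmosShift.exists_shift e
  have hsep : TopologicalSpace.SeparableSpace (lp (fun _ : ℤ => ℂ) 2) := by
    have h1 : TopologicalSpace.IsSeparable
        (((Submodule.span ℂ (Set.range e) : Submodule ℂ (lp (fun _ : ℤ => ℂ) 2)).topologicalClosure :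
          Submodule ℂ (lp (fun _ : ℤ => ℂ) 2)) : Set (lp (fun _ : ℤ => ℂ) 2)) := by
      rw [Submodule.topologicalClosure_coe]
      exact (Set.countable_range e).isSeparable.span.closure
    rw [e.dense_span] at h1
    exact TopologicalSpace.isSeparable_univ_iff.mp h1
  exact ⟨lp (fun _ : ℤ => ℂ) 2, inferInstance, inferInstance, inferInstance, hsep, W,
    Pool.Agent.HalmosShift.chain_iso e W hW⟩

end Pool.Agent.Results.MP_1e8505_an.HalmosChain
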